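import Pool.Agent.W937.FG.Stm

/-!
C2: composition.
-/

set_option autoImplicit false

namespace Pool.Agent.W440.FG.C2

open Pool.Agent.W937.FG Function

theorem seq_iff {p q : Prog Empty ℕ} {c f : ℕ × (ℕ → ℕ)} :
    MExec (.seq p q) c f ↔ ∃ d, MExec p c d ∧ MExec q d f := by
  constructor
  · intro h
    cases h with
    | seq h1 h2 => exact ⟨_, h1, h2⟩
  · rintro ⟨d, h1, h2⟩
    exact MExec.seq h1 h2

theorem nop_iff {c f : ℕ × (ℕ → ℕ)} : MExec (.op .nop) c f ↔ f = c := by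
  constructor
  · intro h
    cases h
    rfl
  · rintro rfl
    exact MExec.nop _

/-- clear the registers `s0 + 1, ..., s0 + p` -/
def clears (s0 : ℕ) : ℕ → Prog Empty ℕ
  | 0 => .op .nop
  | p + 1 => .seq (clears s0 p) (clearP (s0 + 1 + p))

theorem clears_iff (h0 : PropC0) (s0 p : ℕ) : ∀ (x x' : ℕ) (s s' : ℕ → ℕ),
    MExec (clears s0 p) (x, s) (x', s') ↔
      s' = (fun j => if s0 < j ∧ j ≤ s0 + p then 0 else s j) ∧
        x' = x + ∑ i ∈ Finset.range p, s (s0 + 1 + i) := by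
  induction p with
  | zero =>
    intro x x' s s'
    show MExec (.op .nop) _ _ ↔ _
    rw [nop_iff, Prod.mk.injEq]
    have h1 : (fun j => if s0 < j ∧ j ≤ s0 + 0 then 0 else s j) = s := by
      funext j
      rw [if_neg (by omega)]
    rw [h1]
    simp [and_comm]
  | succ p ih =>
    intro x x' s s'
    show MExec (.seq (clears s0 p) (clearP (s0 + 1 + p))) _ _ ↔ _
    rw [seq_iff]
    constructor
    · rintro ⟨⟨x1, s1⟩, h1, h2⟩
      rw [ih] at h1
      rw [h0.1] at h2
      obtain ⟨rfl, rfl⟩ := h1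
      obtain ⟨rfl, rfl⟩ := h2
      refine ⟨?_, ?_⟩
      · funext j
        by_cases hj : j = s0 + 1 + p
        · subst hj
          rw [update_self, if_pos (by omega)]
        · rw [update_of_ne hj]
          by_cases hj2 : s0 < j ∧ j ≤ s0 + p
          · rw [if_pos hj2, if_pos (by omega)]
          · rw [if_neg hj2, if_neg (by omega)]
      · beta_reduce
        rw [Finset.sum_range_succ, if_neg (by omega), add_assoc]
    · rintro ⟨rfl, rfl⟩
      refine ⟨(x + ∑ i ∈ Finset.range p, s (s0 + 1 + i),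
        fun j => if s0 < j ∧ j ≤ s0 + p then 0 else s j), (ih _ _ _ _).2 ⟨rfl, rfl⟩, ?_⟩
      rw [h0.1]
      refine ⟨?_, ?_⟩
      · funext j
        by_cases hj : j = s0 + 1 + p
        · subst hj
          rw [update_self, if_pos (by omega)]
        · rw [update_of_ne hj]
          by_cases hj2 : s0 < j ∧ j ≤ s0 + p
          · rw [if_pos hj2, if_pos (by omega)]
          · rw [if_neg hj2, if_neg (by omega)]
      · beta_reduce
        rw [Finset.sum_range_succ, if_neg (by omega)]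
        ring

/-- put the values `G 0, ..., G (p - 1)` in the registers `s0 + 1, ..., s0 + p` -/
def fill (s0 : ℕ) (G : ℕ → ℕ) (p : ℕ) (s : ℕ → ℕ) : ℕ → ℕ :=
  fun j => if s0 < j ∧ j ≤ s0 + p then G (j - s0 - 1) else s j

theorem fill_zero (s0 : ℕ) (G s : ℕ → ℕ) : fill s0 G 0 s = s := by
  funext j
  unfold fill
  rw [if_neg (by omega)]

theorem fill_succ (s0 : ℕ) (G s : ℕ → ℕ) (p : ℕ) :
    fill s0 G (p + 1) s = update (fill s0 G p s) (s0 + 1 + p) (G p) := by
  funext j
  by_cases hj : j = s0 + 1 + p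
  · subst hj
    rw [update_self]
    unfold fill
    rw [if_pos (by omega)]
    congr 1
    omega
  · rw [update_of_ne hj]
    unfold fill
    by_cases hj2 : s0 < j ∧ j ≤ s0 + p
    · rw [if_pos hj2, if_pos (by omega)]
    · rw [if_neg hj2, if_neg (by omega)]

theorem fill_low (s0 : ℕ) (G s : ℕ → ℕ) (p j : ℕ) (h : j ≤ s0) : fill s0 G p s j = s j := by
  unfold fill
  rw [if_neg (by omega)]

theorem fill_high (s0 : ℕ) (G s : ℕ → ℕ) (p j : ℕ) (h : s0 + 1 + p ≤ j) :
    fill s0 G p s j = s j := by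
  unfold fill
  rw [if_neg (by omega)]

theorem fill_mid (s0 : ℕ) (G s : ℕ → ℕ) (p i : ℕ) (h : i < p) :
    fill s0 G p s (s0 + 1 + i) = G i := by
  unfold fill
  rw [if_pos (by omega)]
  congr 1
  omega

/-- the `i`-th function, `0` beyond `n` -/
def ext {m n : ℕ} (g : Fin n → List.Vector ℕ m → ℕ) (a : List.Vector ℕ m) (i : ℕ) : ℕ :=
  if h : i < n then g ⟨i, h⟩ a else 0

theorem ext_prim {m n : ℕ} (g : Fin n → List.Vector ℕ m → ℕ) (hg : ∀ i, Nat.Primrec' (g i))
    (i : ℕ) : Nat.Primrec' (fun a => ext g a i) := by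
  unfold ext
  by_cases h : i < n
  · simp only [dif_pos h]
    exact hg _
  · simp only [dif_neg h]
    exact Nat.Primrec'.prim_iff.2 (Primrec.const 0)

theorem sum_prim {m : ℕ} (h : ℕ → List.Vector ℕ m → ℕ) (hh : ∀ i, Nat.Primrec' (h i)) (p : ℕ) :
    Nat.Primrec' (fun a => ∑ i ∈ Finset.range p, h i a) := by
  induction p with
  | zero =>
    simp only [Finset.sum_range_zero]
    exact Nat.Primrec'.prim_iff.2 (Primrec.const 0)
  | succ p ih =>
    simp only [Finset.sum_range_succ]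
    exact Nat.Primrec'.prim_iff.2
      (Primrec.nat_add.comp (Nat.Primrec'.prim_iff.1 ih) (Nat.Primrec'.prim_iff.1 (hh p)))

theorem add_prim {m : ℕ} {f g : List.Vector ℕ m → ℕ} (hf : Nat.Primrec' f) (hg : Nat.Primrec' g) :
    Nat.Primrec' (fun a => f a + g a) :=
  Nat.Primrec'.prim_iff.2
    (Primrec.nat_add.comp (Nat.Primrec'.prim_iff.1 hf) (Nat.Primrec'.prim_iff.1 hg))

/-- the programs computing the first `p` functions -/
theorem first (m n : ℕ) (g : Fin n → List.Vector ℕ m → ℕ) (b : Fin n → List.Vector ℕ m → ℕ)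
    (hb : ∀ i, ∀ (ι : Fin m → ℕ) (s0 : ℕ), (∀ i, ι i < s0) →
      ∃ M : Prog Empty ℕ, ∀ (x : ℕ) (s : ℕ → ℕ), (∀ j, s0 ≤ j → s j = 0) →
        (∀ (x' : ℕ) (s' : ℕ → ℕ), MExec M (x, s) (x', s') →
          s' = update s s0 (g i (List.Vector.ofFn fun i => s (ι i))) ∧
          x = x' + g i (List.Vector.ofFn fun i => s (ι i))) ∧
        (b i (List.Vector.ofFn fun i => s (ι i)) ≤ x →
          ∃ x', MExec M (x, s) (x', update s s0 (g i (List.Vector.ofFn fun i => s (ι i))))))
    (ι : Fin m → ℕ) (s0 : ℕ) (hι : ∀ i, ι i < s0) (p : ℕ) (hp : p ≤ n) :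
    ∃ M : Prog Empty ℕ, ∀ (x : ℕ) (s : ℕ → ℕ), (∀ j, s0 ≤ j → s j = 0) →
      (∀ (x' : ℕ) (s' : ℕ → ℕ), MExec M (x, s) (x', s') →
        s' = fill s0 (ext g (List.Vector.ofFn fun i => s (ι i))) p s ∧
        x = x' + ∑ i ∈ Finset.range p, ext g (List.Vector.ofFn fun i => s (ι i)) i) ∧
      (∑ i ∈ Finset.range p, (ext g (List.Vector.ofFn fun i => s (ι i)) i +
          ext b (List.Vector.ofFn fun i => s (ι i)) i) ≤ x →
        ∃ x', MExec M (x, s)
          (x', fill s0 (ext g (List.Vector.ofFn fun i => s (ι i))) p s)) := by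
  induction p with
  | zero =>
    refine ⟨.op .nop, fun x s hs => ⟨fun x' s' h => ?_, fun _ => ⟨x, ?_⟩⟩⟩
    · rw [nop_iff, Prod.mk.injEq] at h
      obtain ⟨rfl, rfl⟩ := h
      rw [fill_zero]
      simp
    · rw [fill_zero]
      exact MExec.nop _
  | succ p ih =>
    obtain ⟨M1, hM1⟩ := ih (by omega)
    obtain ⟨M2, hM2⟩ := hb ⟨p, hp⟩ ι (s0 + 1 + p) (fun i => by have := hι i; omega)
    refine ⟨.seq M1 M2, fun x s hs => ?_⟩
    obtain ⟨h1s, h1c⟩ := hM1 x s hs
    obtain ⟨A, hA⟩ : ∃ A, A = (List.Vector.ofFn fun i => s (ι i)) := ⟨_, rfl⟩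
    rw [← hA] at h1s h1c ⊢
    have hfz : ∀ j, s0 + 1 + p ≤ j → fill s0 (ext g A) p s j = 0 := by
      intro j hj
      rw [fill_high _ _ _ _ _ hj]
      exact hs j (by omega)
    have hin : (List.Vector.ofFn fun i => fill s0 (ext g A) p s (ι i)) = A := by
      rw [hA]
      congr 1
      funext i
      rw [fill_low _ _ _ _ _ (hι i).le]
    have hG : ext g A p = g ⟨p, hp⟩ A := by
      unfold ext
      rw [dif_pos (show p < n from hp)]
    have hB : ext b A p = b ⟨p, hp⟩ A := by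
      unfold ext
      rw [dif_pos (show p < n from hp)]
    constructor
    · intro x' s' h
      rw [seq_iff] at h
      obtain ⟨⟨x1, s1⟩, h1, h2⟩ := h
      obtain ⟨rfl, hx⟩ := h1s x1 s1 h1
      obtain ⟨h3, -⟩ := hM2 x1 (fill s0 (ext g A) p s) hfz
      obtain ⟨h4, h5⟩ := h3 x' s' h2
      rw [hin, ← hG] at h4 h5
      refine ⟨?_, ?_⟩
      · rw [h4, fill_succ]
      · rw [Finset.sum_range_succ]
        omega
    · intro hx
      rw [Finset.sum_range_succ] at hx
      obtain ⟨x1, h1⟩ := h1c (by omega)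
      obtain ⟨-, hx1⟩ := h1s x1 _ h1
      obtain ⟨-, h3⟩ := hM2 x1 (fill s0 (ext g A) p s) hfz
      rw [hin, ← hG, ← hB] at h3
      rw [Finset.sum_add_distrib] at hx
      obtain ⟨x2, h4⟩ := h3 (by omega)
      refine ⟨x2, ?_⟩
      rw [fill_succ, seq_iff]
      exact ⟨_, h1, h4⟩

theorem main (h0 : Pool.Agent.W937.FG.PropC0) : Pool.Agent.W937.FG.PropC2 := by
  intro m n f g hf hg
  obtain ⟨hfp, bf, hbf, hfM⟩ := hf
  choose hgp bg hbg hgM using hg
  refine ⟨Nat.Primrec'.comp g hfp hgp, fun a => (∑ i ∈ Finset.range n, (ext g a i + ext bg a i)) +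
    bf (List.Vector.ofFn fun i => g i a), ?_, ?_⟩
  · exact add_prim (sum_prim (fun i a => ext g a i + ext bg a i)
      (fun i => add_prim (ext_prim g hgp i) (ext_prim bg hbg i)) n) (Nat.Primrec'.comp g hbf hgp)
  · intro ι s0 hι
    obtain ⟨M1, hM1⟩ := first m n g bg hgM ι s0 hι n le_rfl
    obtain ⟨M2, hM2⟩ := hfM (fun i => s0 + 1 + (i : ℕ)) (s0 + 1 + n) (fun i => by
      have := i.2
      omega)
    refine ⟨.seq M1 (.seq M2 (.seq (clears s0 n) (moveP (s0 + 1 + n) s0))), fun x s hs => ?_⟩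
    obtain ⟨h1s, h1c⟩ := hM1 x s hs
    obtain ⟨A, hA⟩ : ∃ A, A = (List.Vector.ofFn fun i => s (ι i)) := ⟨_, rfl⟩
    rw [← hA] at h1s h1c ⊢
    beta_reduce
    obtain ⟨R, hR⟩ : ∃ R, R = f (List.Vector.ofFn fun i => g i A) := ⟨_, rfl⟩
    rw [← hR]
    have hfz : ∀ j, s0 + 1 + n ≤ j → fill s0 (ext g A) n s j = 0 := by
      intro j hj
      rw [fill_high _ _ _ _ _ hj]
      exact hs j (by omega)
    have hin : (List.Vector.ofFn fun i : Fin n => fill s0 (ext g A) n s (s0 + 1 + (i : ℕ))) =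
        List.Vector.ofFn fun i => g i A := by
      congr 1
      funext i
      rw [fill_mid _ _ _ _ _ i.2]
      unfold ext
      rw [dif_pos i.2]
    -- the state after clearing
    have hcl : (fun j => if s0 < j ∧ j ≤ s0 + n then 0 else
        update (fill s0 (ext g A) n s) (s0 + 1 + n) R j) = update s (s0 + 1 + n) R := by
      funext j
      by_cases hj : j = s0 + 1 + n
      · subst hj
        rw [if_neg (by omega), update_self, update_self]
      · rw [update_of_ne hj, update_of_ne hj]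
        by_cases hj2 : s0 < j ∧ j ≤ s0 + n
        · rw [if_pos hj2, hs j (by omega)]
        · rw [if_neg hj2]
          unfold fill
          rw [if_neg hj2]
    have hmv : update (update (update s (s0 + 1 + n) R) (s0 + 1 + n) 0) s0
        (update s (s0 + 1 + n) R s0 + update s (s0 + 1 + n) R (s0 + 1 + n)) = update s s0 R := by
      rw [update_self, update_of_ne (by omega : s0 ≠ s0 + 1 + n), hs s0 le_rfl, zero_add,
        update_idem]
      congr 1
      have := hs (s0 + 1 + n) (by omega)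
      rw [← this, update_eq_self]
    have hsum : ∑ i ∈ Finset.range n,
        update (fill s0 (ext g A) n s) (s0 + 1 + n) R (s0 + 1 + i) =
        ∑ i ∈ Finset.range n, ext g A i := by
      refine Finset.sum_congr rfl fun i hi => ?_
      rw [Finset.mem_range] at hi
      rw [update_of_ne (by omega), fill_mid _ _ _ _ _ hi]
    constructor
    · intro x' s' h
      rw [seq_iff] at h
      obtain ⟨⟨x1, s1⟩, h1, h⟩ := h
      rw [seq_iff] at h
      obtain ⟨⟨x2, s2⟩, h2, h⟩ := h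
      rw [seq_iff] at h
      obtain ⟨⟨x3, s3⟩, h3, h4⟩ := h
      obtain ⟨rfl, hx⟩ := h1s x1 s1 h1
      obtain ⟨h5, -⟩ := hM2 x1 (fill s0 (ext g A) n s) hfz
      obtain ⟨h6, h7⟩ := h5 x2 s2 h2
      rw [hin, ← hR] at h6 h7
      subst h6
      rw [clears_iff h0, hcl, hsum] at h3
      obtain ⟨rfl, rfl⟩ := h3
      rw [h0.2.1 _ _ _ _ _ _ (by omega : s0 + 1 + n ≠ s0), hmv] at h4
      obtain ⟨rfl, rfl⟩ := h4
      exact ⟨rfl, by omega⟩
    · intro hx
      obtain ⟨x1, h1⟩ := h1c (by omega)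
      obtain ⟨-, hx1⟩ := h1s x1 _ h1
      obtain ⟨h5s, h5⟩ := hM2 x1 (fill s0 (ext g A) n s) hfz
      rw [hin, ← hR] at h5
      rw [Finset.sum_add_distrib] at hx
      obtain ⟨x2, h2⟩ := h5 (by omega)
      refine ⟨x2 + ∑ i ∈ Finset.range n, ext g A i, ?_⟩
      rw [seq_iff]
      refine ⟨_, h1, ?_⟩
      rw [seq_iff]
      refine ⟨_, h2, ?_⟩
      rw [seq_iff]
      refine ⟨(x2 + ∑ i ∈ Finset.range n, ext g A i, update s (s0 + 1 + n) R), ?_, ?_⟩
      · rw [clears_iff h0, hcl, hsum]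
        exact ⟨rfl, rfl⟩
      · rw [h0.2.1 _ _ _ _ _ _ (by omega : s0 + 1 + n ≠ s0), hmv]
        exact ⟨rfl, rfl⟩

end Pool.Agent.W440.FG.C2
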