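import Pool.Agent.W440.FG.C2

/-!
C3: primitive recursion.
-/

set_option autoImplicit false

namespace Pool.Agent.W440.FG.C3

open Pool.Agent.W937.FG Function Pool.Agent.W440.FG.C2

theorem dec_iff {i x x' : ℕ} {s s' : ℕ → ℕ} :
    MExec (.op (.dec i)) (x, s) (x', s') ↔ 0 < s i ∧ x' = x + 1 ∧ s' = update s i (s i - 1) := by
  constructor
  · intro h
    cases h with
    | dec _ _ _ h => exact ⟨h, rfl, rfl⟩
  · rintro ⟨h, rfl, rfl⟩
    exact MExec.dec _ _ _ h

theorem inc_iff {i x x' : ℕ} {s s' : ℕ → ℕ} :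
    MExec (.op (.inc i)) (x, s) (x', s') ↔ x = x' + 1 ∧ s' = update s i (s i + 1) := by
  constructor
  · intro h
    cases h with
    | inc _ _ _ => exact ⟨rfl, rfl⟩
  · rintro ⟨rfl, rfl⟩
    exact MExec.inc _ _ _

theorem zero_iff {i x x' : ℕ} {s s' : ℕ → ℕ} :
    MExec (.op (.zero i)) (x, s) (x', s') ↔ s i = 0 ∧ x' = x ∧ s' = s := by
  constructor
  · intro h
    cases h with
    | zero _ _ _ h => exact ⟨h, rfl, rfl⟩
  · rintro ⟨h, rfl, rfl⟩
    exact MExec.zero _ _ _ h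

theorem star_ind {p : Prog Empty ℕ} {I : ℕ × (ℕ → ℕ) → Prop}
    (hI : ∀ c d, I c → MExec p c d → I d) {c d : ℕ × (ℕ → ℕ)} (h : MExec (.star p) c d) :
    I c → I d := by
  generalize hq : Prog.star p = q at h
  induction h with
  | nop _ => cases hq
  | inc _ _ _ => cases hq
  | dec _ _ _ _ => cases hq
  | zero _ _ _ _ => cases hq
  | seq _ _ _ _ => cases hq
  | altl _ _ => cases hq
  | altr _ _ => cases hq
  | star_nil _ => exact id
  | star_cons h1 h2 ih1 ih2 =>
    cases hq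
    exact fun hc => ih2 rfl (hI _ _ hc h1)

/-- the values of the recursion -/
def rr {n : ℕ} (f : List.Vector ℕ n → ℕ) (g : List.Vector ℕ (n + 2) → ℕ) (w : List.Vector ℕ n)
    (t : ℕ) : ℕ :=
  Nat.rec (f w) (fun y IH => g (y ::ᵥ IH ::ᵥ w)) t

/-- the requirement at round `t` -/
def qq {n : ℕ} (f : List.Vector ℕ n → ℕ) (g bg : List.Vector ℕ (n + 2) → ℕ)
    (w : List.Vector ℕ n) (t : ℕ) : ℕ :=
  rr f g w t + bg (t ::ᵥ rr f g w t ::ᵥ w)

/-- the sum of the requirements -/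
def Sm {n : ℕ} (f : List.Vector ℕ n → ℕ) (g bg : List.Vector ℕ (n + 2) → ℕ)
    (w : List.Vector ℕ n) (m : ℕ) : ℕ :=
  Nat.rec 0 (fun y IH => IH + qq f g bg w y) m

theorem le_Sm {n : ℕ} (f : List.Vector ℕ n → ℕ) (g bg : List.Vector ℕ (n + 2) → ℕ)
    (w : List.Vector ℕ n) (m t : ℕ) (h : t < m) : qq f g bg w t ≤ Sm f g bg w m := by
  induction m with
  | zero => omega
  | succ m ih =>
    show _ ≤ Sm f g bg w m + qq f g bg w m
    rcases Nat.lt_succ_iff_lt_or_eq.1 h with h1 | h1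
    · have := ih h1
      omega
    · subst h1
      omega

theorem rr_prim {n : ℕ} {f : List.Vector ℕ n → ℕ} {g : List.Vector ℕ (n + 2) → ℕ}
    (hf : Primrec f) (hg : Primrec g) : Primrec₂ (rr f g) := by
  refine Primrec.nat_rec (g := fun w (p : ℕ × ℕ) => g (p.1 ::ᵥ p.2 ::ᵥ w)) hf ?_
  refine hg.comp (Primrec.vector_cons.comp (Primrec.fst.comp Primrec.snd)
    (Primrec.vector_cons.comp (Primrec.snd.comp Primrec.snd) Primrec.fst))

theorem qq_prim {n : ℕ} {f : List.Vector ℕ n → ℕ} {g bg : List.Vector ℕ (n + 2) → ℕ}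
    (hf : Primrec f) (hg : Primrec g) (hbg : Primrec bg) : Primrec₂ (qq f g bg) := by
  have h1 : Primrec fun p : List.Vector ℕ n × ℕ => rr f g p.1 p.2 :=
    (rr_prim hf hg).comp Primrec.fst Primrec.snd
  refine Primrec.nat_add.comp h1 (hbg.comp (Primrec.vector_cons.comp Primrec.snd
    (Primrec.vector_cons.comp h1 Primrec.fst)))

theorem Sm_prim {n : ℕ} {f : List.Vector ℕ n → ℕ} {g bg : List.Vector ℕ (n + 2) → ℕ}
    (hf : Primrec f) (hg : Primrec g) (hbg : Primrec bg) : Primrec₂ (Sm f g bg) := by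
  refine Primrec.nat_rec (f := fun _ => 0) (g := fun w (p : ℕ × ℕ) => p.2 + qq f g bg w p.1)
    (Primrec.const 0) ?_
  refine Primrec.nat_add.comp (Primrec.snd.comp Primrec.snd)
    ((qq_prim hf hg hbg).comp Primrec.fst (Primrec.fst.comp Primrec.snd))

section
variable {n : ℕ} (f : List.Vector ℕ n → ℕ) (g bg : List.Vector ℕ (n + 2) → ℕ)

/-- the state of the loop -/
def SS (w : List.Vector ℕ n) (h s0 : ℕ) (s : ℕ → ℕ) (t : ℕ) : ℕ → ℕ :=
  fun j => if j = s0 then rr f g w t else if j = s0 + 1 then h - t else if j = s0 + 2 then t else s j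

/-- the body of the loop -/
def body (Mg : Prog Empty ℕ) (s0 : ℕ) : Prog Empty ℕ :=
  .seq (.op (.dec (s0 + 1))) (.seq Mg (.seq (clearP s0) (.seq (moveP (s0 + 3) s0)
    (.op (.inc (s0 + 2))))))

theorem round (h0 : PropC0) (Mg : Prog Empty ℕ) (ι : Fin n → ℕ) (s0 : ℕ) (hι : ∀ i, ι i < s0)
    (hMg : ∀ (x : ℕ) (s : ℕ → ℕ), (∀ j, s0 + 3 ≤ j → s j = 0) →
        (∀ (x' : ℕ) (s' : ℕ → ℕ), MExec Mg (x, s) (x', s') →
          s' = update s (s0 + 3) (g (s (s0 + 2) ::ᵥ s s0 ::ᵥ List.Vector.ofFn fun i => s (ι i))) ∧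
          x = x' + g (s (s0 + 2) ::ᵥ s s0 ::ᵥ List.Vector.ofFn fun i => s (ι i))) ∧
        (bg (s (s0 + 2) ::ᵥ s s0 ::ᵥ List.Vector.ofFn fun i => s (ι i)) ≤ x →
          ∃ x', MExec Mg (x, s)
            (x', update s (s0 + 3)
              (g (s (s0 + 2) ::ᵥ s s0 ::ᵥ List.Vector.ofFn fun i => s (ι i))))))
    (s : ℕ → ℕ) (hs : ∀ j, s0 ≤ j → s j = 0) (w : List.Vector ℕ n)
    (hw : w = List.Vector.ofFn fun i => s (ι i)) (h t : ℕ) (ht : t ≤ h) (x : ℕ) :
    (∀ x' s', MExec (body Mg s0) (x, SS f g w h s0 s t) (x', s') →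
      t < h ∧ s' = SS f g w h s0 s (t + 1) ∧ x' + rr f g w (t + 1) = x + rr f g w t) ∧
    (t < h → bg (t ::ᵥ rr f g w t ::ᵥ w) ≤ x + 1 → rr f g w (t + 1) ≤ x + rr f g w t →
      ∃ x', MExec (body Mg s0) (x, SS f g w h s0 s t) (x', SS f g w h s0 s (t + 1))) := by
  obtain ⟨s1, hs1⟩ : ∃ s1, s1 = update (SS f g w h s0 s t) (s0 + 1) (h - t - 1) := ⟨_, rfl⟩
  have hst : SS f g w h s0 s t (s0 + 1) = h - t := by
    unfold SS
    rw [if_neg (by omega), if_pos rfl]
  have e1 : s1 (s0 + 2) = t := by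
    rw [hs1, update_of_ne (by omega)]
    unfold SS
    rw [if_neg (by omega), if_neg (by omega), if_pos rfl]
  have e2 : s1 s0 = rr f g w t := by
    rw [hs1, update_of_ne (by omega)]
    unfold SS
    rw [if_pos rfl]
  have e3 : (List.Vector.ofFn fun i => s1 (ι i)) = w := by
    rw [hw]
    congr 1
    funext i
    have := hι i
    rw [hs1, update_of_ne (by omega)]
    unfold SS
    rw [if_neg (by omega), if_neg (by omega), if_neg (by omega)]
  have e4 : ∀ j, s0 + 3 ≤ j → s1 j = 0 := by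
    intro j hj
    rw [hs1, update_of_ne (by omega)]
    unfold SS
    rw [if_neg (by omega), if_neg (by omega), if_neg (by omega)]
    exact hs j (by omega)
  have e5 : g (t ::ᵥ rr f g w t ::ᵥ w) = rr f g w (t + 1) := rfl
  obtain ⟨m1, m2⟩ := hMg (x + 1) s1 e4
  rw [e1, e2, e3, e5] at m1 m2
  obtain ⟨s2, hs2⟩ : ∃ s2, s2 = update s1 (s0 + 3) (rr f g w (t + 1)) := ⟨_, rfl⟩
  have f1 : s2 s0 = rr f g w t := by
    rw [hs2, update_of_ne (by omega), e2]
  obtain ⟨s3, hs3⟩ : ∃ s3, s3 = update s2 s0 0 := ⟨_, rfl⟩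
  obtain ⟨s4, hs4⟩ : ∃ s4, s4 = update (update s3 (s0 + 3) 0) s0 (s3 s0 + s3 (s0 + 3)) := ⟨_, rfl⟩
  have g1 : s3 s0 = 0 := by rw [hs3, update_self]
  have g2 : s3 (s0 + 3) = rr f g w (t + 1) := by
    rw [hs3, update_of_ne (by omega), hs2, update_self]
  have g3 : update s4 (s0 + 2) (s4 (s0 + 2) + 1) = SS f g w h s0 s (t + 1) := by
    have g4 : s4 (s0 + 2) = t := by
      rw [hs4, update_of_ne (by omega), update_of_ne (by omega), hs3, update_of_ne (by omega), hs2,
        update_of_ne (by omega), e1]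
    rw [g4]
    funext j
    unfold SS
    by_cases h2 : j = s0 + 2
    · rw [h2, update_self, if_neg (by omega), if_neg (by omega), if_pos rfl]
    rw [update_of_ne h2, hs4]
    by_cases h3 : j = s0
    · rw [h3, update_self, if_pos rfl, g1, g2, zero_add]
    rw [update_of_ne h3, if_neg h3]
    by_cases h4 : j = s0 + 3
    · rw [h4, update_self, if_neg (by omega), if_neg (by omega), hs _ (by omega)]
    rw [update_of_ne h4, hs3, update_of_ne h3, hs2, update_of_ne h4, hs1]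
    by_cases h5 : j = s0 + 1
    · rw [h5, update_self, if_pos rfl]
      omega
    rw [update_of_ne h5, if_neg h5, if_neg h2]
    unfold SS
    rw [if_neg h3, if_neg h5, if_neg h2]
  constructor
  · intro x' s' hM
    unfold body at hM
    rw [seq_iff] at hM
    obtain ⟨⟨y1, u1⟩, a1, hM⟩ := hM
    rw [dec_iff, hst] at a1
    obtain ⟨b1, rfl, rfl⟩ := a1
    rw [← hs1, seq_iff] at hM
    obtain ⟨⟨y2, u2⟩, a2, hM⟩ := hM
    obtain ⟨rfl, hy2⟩ := m1 y2 u2 a2
    rw [← hs2, seq_iff] at hM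
    obtain ⟨⟨y3, u3⟩, a3, hM⟩ := hM
    rw [h0.1, f1, ← hs3] at a3
    obtain ⟨rfl, rfl⟩ := a3
    rw [seq_iff] at hM
    obtain ⟨⟨y4, u4⟩, a4, a5⟩ := hM
    rw [h0.2.1 _ _ _ _ _ _ (by omega : s0 + 3 ≠ s0), ← hs4] at a4
    obtain ⟨rfl, rfl⟩ := a4
    rw [inc_iff, g3] at a5
    obtain ⟨hy, rfl⟩ := a5
    exact ⟨by omega, rfl, by omega⟩
  · intro hlt hb hr
    obtain ⟨y2, hy2⟩ := m2 hb
    have hy2' := (m1 y2 _ hy2).2
    refine ⟨y2 + rr f g w t - 1, ?_⟩
    unfold body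
    rw [seq_iff]
    refine ⟨(x + 1, s1), ?_, ?_⟩
    · rw [dec_iff, hst]
      exact ⟨by omega, rfl, hs1⟩
    rw [seq_iff]
    refine ⟨(y2, s2), ?_, ?_⟩
    · rw [hs2]
      exact hy2
    rw [seq_iff]
    refine ⟨(y2 + rr f g w t, s3), ?_, ?_⟩
    · rw [h0.1, f1]
      exact ⟨hs3, rfl⟩
    rw [seq_iff]
    refine ⟨(y2 + rr f g w t, s4), ?_, ?_⟩
    · rw [h0.2.1 _ _ _ _ _ _ (by omega : s0 + 3 ≠ s0)]
      exact ⟨hs4, rfl⟩
    rw [inc_iff, g3]
    exact ⟨by omega, rfl⟩

end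

theorem main (h0 : Pool.Agent.W937.FG.PropC0) : Pool.Agent.W937.FG.PropC3 := by
  intro n f g hf hg
  obtain ⟨hfp, bf, hbf, hfM⟩ := hf
  obtain ⟨hgp, bg, hbg, hgM⟩ := hg
  refine ⟨Nat.Primrec'.prec hfp hgp, fun v => bf v.tail + f v.tail + v.head +
    Sm f g bg v.tail (v.head + 1), ?_, ?_⟩
  · rw [Nat.Primrec'.prim_iff] at *
    refine Primrec.nat_add.comp (Primrec.nat_add.comp (Primrec.nat_add.comp
      (hbf.comp Primrec.vector_tail) (hfp.comp Primrec.vector_tail)) Primrec.vector_head)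
      ((Sm_prim hfp hgp hbg).comp Primrec.vector_tail (Primrec.succ.comp Primrec.vector_head))
  · intro ι s0 hι
    obtain ⟨Mf, hMf⟩ := hfM (fun i => ι i.succ) s0 (fun i => hι _)
    obtain ⟨Mg, hMg⟩ := hgM (Fin.cons (s0 + 2) (Fin.cons s0 fun i => ι i.succ)) (s0 + 3) (by
      intro i
      refine Fin.cases ?_ (fun i => ?_) i
      · rw [Fin.cons_zero]
        omega
      · rw [Fin.cons_succ]
        refine Fin.cases ?_ (fun i => ?_) i
        · rw [Fin.cons_zero]
          omega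
        · rw [Fin.cons_succ]
          have := hι i.succ
          omega)
    have hvec : ∀ s : ℕ → ℕ, (List.Vector.ofFn fun i : Fin (n + 2) =>
        s ((Fin.cons (s0 + 2) (Fin.cons s0 fun i : Fin n => ι i.succ) : Fin (n + 2) → ℕ) i)) =
        (s (s0 + 2) ::ᵥ s s0 ::ᵥ List.Vector.ofFn fun i => s (ι i.succ)) := by
      intro s
      rfl
    simp only [hvec] at hMg
    refine ⟨.seq Mf (.seq (copyP (ι 0) (s0 + 1) (s0 + 2)) (.seq (.star (body Mg s0))
      (.seq (.op (.zero (s0 + 1))) (clearP (s0 + 2))))), fun x s hs => ?_⟩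
    obtain ⟨w, hw⟩ : ∃ w, w = (List.Vector.ofFn fun i => s (ι i.succ)) := ⟨_, rfl⟩
    obtain ⟨h, hh⟩ : ∃ h, h = s (ι 0) := ⟨_, rfl⟩
    have hhead : (List.Vector.ofFn fun i => s (ι i)).head = h := by rw [hh]; rfl
    have htail : (List.Vector.ofFn fun i => s (ι i)).tail = w := by rw [hw]; rfl
    beta_reduce
    rw [hhead, htail]
    have hrr : (Nat.rec (f w) (fun y IH => g (y ::ᵥ IH ::ᵥ w)) h : ℕ) = rr f g w h := rfl
    rw [hrr]
    obtain ⟨m1, m2⟩ := hMf x s hs
    rw [← hw] at m1 m2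
    have hr0 : f w = rr f g w 0 := rfl
    have hι0 := hι 0
    -- the state after the copy
    obtain ⟨s1, hs1⟩ : ∃ s1, s1 = update s s0 (f w) := ⟨_, rfl⟩
    have c1 : s1 (ι 0) = h := by rw [hs1, update_of_ne (by omega), hh]
    have c2 : s1 (s0 + 1) = 0 := by rw [hs1, update_of_ne (by omega), hs _ (by omega)]
    have c3 : s1 (s0 + 2) = 0 := by rw [hs1, update_of_ne (by omega), hs _ (by omega)]
    have hS0 : update s1 (s0 + 1) (s1 (s0 + 1) + s1 (ι 0)) = SS f g w h s0 s 0 := by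
      rw [c1, c2, zero_add]
      funext j
      unfold SS
      by_cases h1 : j = s0 + 1
      · rw [h1, update_self, if_neg (by omega), if_pos rfl, Nat.sub_zero]
      rw [update_of_ne h1, hs1]
      by_cases h2 : j = s0
      · rw [h2, update_self, if_pos rfl, hr0]
      rw [update_of_ne h2, if_neg h2, if_neg h1]
      by_cases h3 : j = s0 + 2
      · rw [if_pos h3, h3, hs _ (by omega)]
      · rw [if_neg h3]
    have hend : update (SS f g w h s0 s h) (s0 + 2) 0 = update s s0 (rr f g w h) := by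
      funext j
      by_cases h1 : j = s0 + 2
      · rw [h1, update_self, update_of_ne (by omega), hs _ (by omega)]
      rw [update_of_ne h1]
      unfold SS
      by_cases h2 : j = s0
      · rw [h2, update_self, if_pos rfl]
      rw [update_of_ne h2, if_neg h2, if_neg h1]
      by_cases h3 : j = s0 + 1
      · rw [if_pos h3, h3, Nat.sub_self, hs _ (by omega)]
      · rw [if_neg h3]
    have hcount : SS f g w h s0 s h (s0 + 2) = h := by
      unfold SS
      rw [if_neg (by omega), if_neg (by omega), if_pos rfl]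
    have hround := round f g bg h0 Mg (fun i => ι i.succ) s0 (fun i => hι _) hMg s hs w hw h
    constructor
    · intro x' s' hM
      rw [seq_iff] at hM
      obtain ⟨⟨y1, u1⟩, a1, hM⟩ := hM
      obtain ⟨rfl, hy1⟩ := m1 y1 u1 a1
      rw [← hs1, seq_iff] at hM
      obtain ⟨⟨y2, u2⟩, a2, hM⟩ := hM
      rw [h0.2.2 _ _ _ _ _ _ _ (by omega : ι 0 ≠ s0 + 1) (by omega : ι 0 ≠ s0 + 2)
        (by omega : s0 + 1 ≠ s0 + 2) c3, hS0, c1] at a2
      obtain ⟨rfl, hy2⟩ := a2
      rw [seq_iff] at hM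
      obtain ⟨⟨y3, u3⟩, a3, hM⟩ := hM
      have key := star_ind (p := body Mg s0)
        (I := fun c => ∃ t, t ≤ h ∧ c.2 = SS f g w h s0 s t ∧
          c.1 + rr f g w t = y2 + rr f g w 0) (by
          rintro ⟨z, v⟩ ⟨z', v'⟩ ⟨t, ht, hv, hz⟩ hbody
          simp only at hv hz
          subst hv
          obtain ⟨k1, k2, k3⟩ := (hround t ht z).1 z' v' hbody
          refine ⟨t + 1, k1, k2, ?_⟩
          simp only
          omega) a3 ⟨0, Nat.zero_le _, rfl, rfl⟩
      obtain ⟨t, ht, hu3, hy3⟩ := key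
      simp only at hu3 hy3
      subst hu3
      rw [seq_iff] at hM
      obtain ⟨⟨y4, u4⟩, a4, a5⟩ := hM
      rw [zero_iff] at a4
      obtain ⟨hz, rfl, rfl⟩ := a4
      have hz' : h - t = 0 := by
        unfold SS at hz
        rw [if_neg (by omega), if_pos rfl] at hz
        exact hz
      have hth : t = h := by omega
      subst hth
      rw [h0.1, hend, hcount] at a5
      obtain ⟨rfl, rfl⟩ := a5
      refine ⟨rfl, ?_⟩
      omega
    · intro hx
      obtain ⟨y1, a1⟩ := m2 (by omega)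
      have hy1 := (m1 _ _ a1).2
      obtain ⟨y2, hy2⟩ : ∃ y2, y1 = y2 + h := ⟨y1 - h, by omega⟩
      have hK : ∀ t, t ≤ h → qq f g bg w t ≤ y2 + rr f g w 0 := by
        intro t ht
        have := le_Sm f g bg w (h + 1) t (by omega)
        omega
      have loop : ∀ k t, t + k = h → ∀ z, z + rr f g w t = y2 + rr f g w 0 →
          ∃ z', MExec (.star (body Mg s0)) (z, SS f g w h s0 s t) (z', SS f g w h s0 s h) := by
        intro k
        induction k with
        | zero =>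
          intro t ht z hz
          have : t = h := by omega
          subst this
          exact ⟨z, MExec.star_nil _⟩
        | succ k ih =>
          intro t ht z hz
          have q1 := hK t (by omega)
          have q2 := hK (t + 1) (by omega)
          unfold qq at q1 q2
          obtain ⟨z1, hz1⟩ := (hround t (by omega) z).2 (by omega) (by omega) (by omega)
          have hz1' := ((hround t (by omega) z).1 _ _ hz1).2.2
          obtain ⟨z2, hz2⟩ := ih (t + 1) (by omega) z1 (by omega)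
          exact ⟨z2, MExec.star_cons hz1 hz2⟩
      obtain ⟨y3, a3⟩ := loop h 0 (by omega) y2 rfl
      refine ⟨y3 + h, ?_⟩
      rw [seq_iff]
      refine ⟨_, a1, ?_⟩
      rw [← hs1, seq_iff]
      refine ⟨(y2, SS f g w h s0 s 0), ?_, ?_⟩
      · rw [h0.2.2 _ _ _ _ _ _ _ (by omega : ι 0 ≠ s0 + 1) (by omega : ι 0 ≠ s0 + 2)
          (by omega : s0 + 1 ≠ s0 + 2) c3, hS0, c1]
        exact ⟨rfl, hy2⟩
      rw [seq_iff]
      refine ⟨_, a3, ?_⟩
      rw [seq_iff]
      refine ⟨(y3, SS f g w h s0 s h), ?_, ?_⟩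
      · rw [zero_iff]
        refine ⟨?_, rfl, rfl⟩
        unfold SS
        rw [if_neg (by omega), if_pos rfl, Nat.sub_self]
      · rw [h0.1, hend, hcount]
        exact ⟨rfl, rfl⟩

end Pool.Agent.W440.FG.C3
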