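import Pool.Agent.W937.FG.Stm

/-!
E2: exact budget runs are runs of the translated program.
-/

set_option autoImplicit false

namespace Pool.Agent.W440.FG.E2

open Pool.Agent.W937.FG Function

theorem up_N (x t y : ℕ) (a r : ℕ → ℕ) : update (st x t a r) .N y = st y t a r := by
  funext k
  cases k <;> simp [st, update]

theorem up_M (x t y i : ℕ) (a r : ℕ → ℕ) :
    update (st x t a r) (.M i) y = st x t a (update r i y) := by
  funext k
  cases k with
  | M j =>
    by_cases h : j = i
    · subst h
      simp [st, update]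
    · rw [update_of_ne (by simpa using h)]
      simp [st, update_of_ne h]
  | N => simp [st, update]
  | T => simp [st, update]
  | A j => simp [st, update]

theorem gen (T : Type) (t : ℕ) (a : ℕ → ℕ) {M : Prog Empty ℕ} {c d : ℕ × (ℕ → ℕ)}
    (h : MExec M c d) : Exec true (tr T M) (st c.1 t a c.2) ([] : List T) (st d.1 t a d.2) := by
  induction h with
  | nop c => exact Exec.op ⟨rfl, rfl⟩
  | inc i x s =>
    have h1 : Exec true (.op (.dec .N) : Prog T Reg) (st (x + 1) t a s) [] (st x t a s) :=
      Exec.op ⟨rfl, Or.inl ⟨Nat.succ_pos x, by rw [up_N]; rfl⟩⟩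
    have h2 : Exec true (.op (.inc (.M i)) : Prog T Reg) (st x t a s) []
        (st x t a (update s i (s i + 1))) :=
      Exec.op ⟨rfl, by rw [up_M]; rfl⟩
    exact Exec.seq h1 h2
  | dec i x s h =>
    have h1 : Exec true (.op (.dec (.M i)) : Prog T Reg) (st x t a s) []
        (st x t a (update s i (s i - 1))) :=
      Exec.op ⟨rfl, Or.inl ⟨h, by rw [up_M]; rfl⟩⟩
    have h2 : Exec true (.op (.inc .N) : Prog T Reg) (st x t a (update s i (s i - 1))) []
        (st (x + 1) t a (update s i (s i - 1))) :=
      Exec.op ⟨rfl, by rw [up_N]; rfl⟩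
    exact Exec.seq h1 h2
  | zero i x s h => exact Exec.op ⟨rfl, h, rfl⟩
  | seq h1 h2 ih1 ih2 => exact Exec.seq ih1 ih2
  | altl h ih => exact Exec.altl ih
  | altr h ih => exact Exec.altr ih
  | star_nil c => exact Exec.star_nil
  | star_cons h1 h2 ih1 ih2 => exact Exec.star_cons ih1 ih2

theorem main : Pool.Agent.W937.FG.PropE2 := by
  intro T M x x' t a r r' h
  exact gen T t a h

end Pool.Agent.W440.FG.E2
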